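import Mathlib

namespace Pool.Agent.Results.MP_2df8e9_al.CliffordEmbedding

open Equiv Function

universe u

/-- The bracket of `A^-`: `[a_1, ..., a_n] = ∑_σ sgn(σ) a_{σ(1)} ⋯ a_{σ(n)}`. -/
def stdBracket {A : Type u} [Ring A] {n : ℕ} (a : Fin n → A) : A :=
  ∑ σ : Perm (Fin n), ((Perm.sign σ : ℤˣ) : ℤ) • (List.ofFn fun k => a (σ k)).prod

/-- `β` is the bracket of `L_{n+1}` on `F^{n+1}`: an alternating `n`-linear map with
`[e_1, ..., e_{n+1}]` (omitting `e_i`) equal to `(-1)^{n+i+1} e_i`. The basis vector numbered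
`i : Fin (n + 1)` here is `e_{i+1}`. -/
def IsLBracket (F : Type u) [Field F] (n : ℕ)
    (β : (Fin (n + 1) → F) [⋀^Fin n]→ₗ[F] (Fin (n + 1) → F)) : Prop :=
  ∀ i : Fin (n + 1), β (fun k => Pi.single (i.succAbove k) 1) =
    ((-1 : F) ^ (n + (i.val + 1) + 1)) • Pi.single i 1

section ring

variable {A : Type u} [Ring A]

def W {n : ℕ} (a : Fin n → A) : A := (List.ofFn a).prod

lemma W_succ {n : ℕ} (a : Fin (n + 1) → A) : W a = a 0 * W fun k => a k.succ := by
  simp [W, List.ofFn_succ]

lemma adj (s : ℤ) : ∀ (n : ℕ) (a : Fin (n + 1) → A) (i : Fin n),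
    a i.succ * a i.castSucc = s • (a i.castSucc * a i.succ) →
      W (fun k => a (swap i.castSucc i.succ k)) = s • W a := by
  intro n
  induction n with
  | zero => intro a i; exact i.elim0
  | succ n ih =>
    intro a i
    refine Fin.cases ?_ (fun i => ?_) i
    · intro h
      rw [W_succ, W_succ, W_succ a, W_succ fun k => a k.succ]
      have : (fun k : Fin n => a (swap (Fin.castSucc 0) (Fin.succ 0) k.succ.succ)) =
          fun k : Fin n => a k.succ.succ := by
        funext k
        rw [swap_apply_of_ne_of_ne]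
        · exact Fin.succ_ne_zero _
        · exact (Fin.succ_injective _).ne (Fin.succ_ne_zero _)
      rw [this, ← mul_assoc, ← mul_assoc, ← smul_mul_assoc]
      exact congrArg (· * _) (by simpa using h)
    · intro h
      have h0 : (0 : Fin (n + 2)) ≠ i.succ.castSucc := by
        rw [← Fin.succ_castSucc]
        exact (Fin.succ_ne_zero _).symm
      rw [W_succ, W_succ a, swap_apply_of_ne_of_ne h0 (Fin.succ_ne_zero _).symm,
        ← mul_smul_comm, ← ih (fun k => a k.succ) i (by rw [Fin.succ_castSucc]; exact h)]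
      congr 2
      funext k
      rw [(Fin.succ_injective _).map_swap, Fin.succ_castSucc]

lemma anti {n : ℕ} (σ : Perm (Fin (n + 1))) : ∀ x : Fin (n + 1) → A,
    (∀ i j, i ≠ j → x i * x j = -(x j * x i)) →
      W (fun k => x (σ k)) = ((Perm.sign σ : ℤˣ) : ℤ) • W x := by
  have hσ : σ ∈ Submonoid.closure (Set.range fun i : Fin n => swap i.castSucc i.succ) := by
    rw [Perm.mclosure_swap_castSucc_succ]
    trivial
  induction hσ using Submonoid.closure_induction with
  | mem σ h =>
    obtain ⟨i, rfl⟩ := h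
    intro x hx
    rw [Perm.sign_swap i.castSucc_lt_succ.ne]
    exact adj _ n x i (by rw [hx _ _ i.castSucc_lt_succ.ne']; simp)
  | one => intro x _; simp
  | mul σ τ _ _ h1 h2 =>
    intro x hx
    have := h2 (fun k => x (σ k)) fun i j hij => hx _ _ (σ.injective.ne hij)
    rw [h1 x hx, smul_smul] at this
    rw [Perm.sign_mul, Units.val_mul, mul_comm]
    exact this

lemma cent {n : ℕ} (σ : Perm (Fin (n + 1))) : ∀ (x : Fin (n + 1) → A) (p : Fin (n + 1)),
    (∀ k, x p * x k = x k * x p) → (∀ i j, i ≠ p → j ≠ p → i ≠ j → x i * x j = -(x j * x i)) →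
      W (fun k => x (σ k)) = (((Perm.sign σ : ℤˣ) : ℤ) * (-1) ^ ((σ⁻¹ p).val + p.val)) • W x := by
  have hσ : σ ∈ Submonoid.closure (Set.range fun i : Fin n => swap i.castSucc i.succ) := by
    rw [Perm.mclosure_swap_castSucc_succ]
    trivial
  induction hσ using Submonoid.closure_induction with
  | mem σ h =>
    obtain ⟨i, rfl⟩ := h
    intro x p hp hx
    rw [Perm.sign_swap i.castSucc_lt_succ.ne, swap_inv]
    refine adj _ n x i ?_
    by_cases h1 : p = i.castSucc
    · subst h1
      rw [swap_apply_left, ← hp]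
      simp [pow_add, pow_succ, ← mul_pow]
    · by_cases h2 : p = i.succ
      · subst h2
        rw [swap_apply_right, hp]
        simp [pow_add, pow_succ, ← mul_pow]
      · rw [swap_apply_of_ne_of_ne h1 h2, hx _ _ (Ne.symm h2) (Ne.symm h1) i.castSucc_lt_succ.ne']
        simp [pow_add, ← mul_pow]
  | one => intro x p _ _; simp [pow_add, ← mul_pow]
  | mul σ τ _ _ h1 h2 =>
    intro x p hp hx
    have := h2 (fun k => x (σ k)) (σ⁻¹ p) (fun k => by simpa using hp _)
      fun i j hi hj hij => hx _ _ (fun h => hi (by rw [← h]; simp)) (fun h => hj (by rw [← h]; simp))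
        (σ.injective.ne hij)
    rw [h1 x p hp hx, smul_smul] at this
    refine this.trans ?_
    congr 1
    rw [Perm.sign_mul, Units.val_mul, mul_inv_rev, Perm.mul_apply, pow_add, pow_add, pow_add]
    have : ((-1 : ℤ) ^ (σ⁻¹ p).val) * (-1) ^ (σ⁻¹ p).val = 1 := by simp [← mul_pow]
    linear_combination (((Perm.sign σ : ℤˣ) : ℤ) * ((Perm.sign τ : ℤˣ) : ℤ) *
      (-1) ^ (τ⁻¹ (σ⁻¹ p)).val * (-1) ^ p.val) * this

lemma std_anti {n : ℕ} (x : Fin (n + 1) → A) (hx : ∀ i j, i ≠ j → x i * x j = -(x j * x i)) :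
    stdBracket x = (n + 1).factorial • W x := by
  have : ∀ σ : Perm (Fin (n + 1)),
      ((Perm.sign σ : ℤˣ) : ℤ) • (List.ofFn fun k => x (σ k)).prod = W x := by
    intro σ
    have := anti σ x hx
    rw [W] at this
    rw [this, smul_smul, ← Units.val_mul, Int.units_mul_self]
    simp
  simp only [stdBracket, this, Finset.sum_const, Finset.card_univ, Fintype.card_perm,
    Fintype.card_fin]

lemma std_cent {n : ℕ} (hn : Even n) (x : Fin (n + 1) → A) (hp : ∀ k, x 0 * x k = x k * x 0)
    (hx : ∀ i j, i ≠ 0 → j ≠ 0 → i ≠ j → x i * x j = -(x j * x i)) :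
    stdBracket x = n.factorial • W x := by
  have h1 : ∀ σ : Perm (Fin (n + 1)),
      ((Perm.sign σ : ℤˣ) : ℤ) • (List.ofFn fun k => x (σ k)).prod
        = ((-1 : ℤ) ^ (σ⁻¹ 0).val) • W x := by
    intro σ
    have := cent σ x 0 hp hx
    rw [W] at this
    rw [this, smul_smul, ← mul_assoc, ← Units.val_mul, Int.units_mul_self]
    simp
  have h2 : ∑ σ : Perm (Fin (n + 1)), (-1 : ℤ) ^ (σ⁻¹ 0).val = n.factorial := by
    rw [← Equiv.sum_comp (Equiv.inv (Perm (Fin (n + 1))))]
    simp only [Equiv.inv_apply, inv_inv]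
    rw [← Equiv.sum_comp Perm.decomposeFin.symm, Fintype.sum_prod_type]
    simp only [Perm.decomposeFin_symm_apply_zero, Finset.sum_const, Finset.card_univ,
      Fintype.card_perm, Fintype.card_fin, ← Finset.smul_sum]
    rw [Fin.sum_univ_eq_sum_range (fun i => (-1 : ℤ) ^ i), neg_one_geom_sum,
      if_neg (by simpa [Nat.even_add_one] using hn)]
    simp
  simp only [stdBracket, h1, ← Finset.sum_smul, h2, natCast_zsmul]

lemma pass (d : A) : ∀ (n : ℕ) (x : Fin n → A), (∀ k, d * x k = -(x k * d)) →
    d * W x = ((-1 : ℤ) ^ n) • (W x * d) := by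
  intro n
  induction n with
  | zero => intro x _; simp [W]
  | succ n ih =>
    intro x h
    rw [W_succ, ← mul_assoc, h, neg_mul, mul_assoc, ih _ fun k => h _, pow_succ, mul_neg_one,
      neg_smul, mul_smul_comm, mul_assoc]

lemma W_sq : ∀ (n : ℕ) (x : Fin n → A), (∀ i j, i ≠ j → x i * x j = -(x j * x i)) →
    (∀ i, x i * x i = 1) → ∃ e : ℕ, W x * W x = (-1) ^ e := by
  intro n
  induction n with
  | zero => intro x _ _; exact ⟨0, by simp [W]⟩
  | succ n ih =>
    intro x h h1
    obtain ⟨e, he⟩ := ih (fun k => x k.succ) (fun i j hij => h _ _ ((Fin.succ_injective _).ne hij))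
      fun i => h1 _
    have h2 := pass (x 0) n (fun k => x k.succ) fun k => h _ _ (Fin.succ_ne_zero k).symm
    refine ⟨n + e, ?_⟩
    rw [W_succ]
    nth_rewrite 1 [h2]
    rw [smul_mul_assoc, mul_assoc, ← mul_assoc (x 0), h1, one_mul, he, pow_add]
    simp

lemma W_front {n : ℕ} (x : Fin (n + 1) → A) (hx : ∀ i j, i ≠ j → x i * x j = -(x j * x i))
    (i : Fin (n + 1)) : x i * W (fun k => x (i.succAbove k)) = ((-1 : ℤ) ^ i.val) • W x := by
  have := anti i.cycleRange.symm x hx
  rw [W_succ] at this
  simpa using this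

end ring

lemma W_smul {F A : Type u} [Field F] [Ring A] [Algebra F A] (c : F) :
    ∀ (n : ℕ) (x : Fin n → A), W (fun k => c • x k) = c ^ n • W x := by
  intro n
  induction n with
  | zero => intro x; simp [W]
  | succ n ih =>
    intro x
    rw [W_succ, W_succ x, ih, smul_mul_smul_comm, pow_succ']

lemma exists_bracket (F : Type u) [Field F] (n : ℕ) : ∃ β, IsLBracket F n β := by
  refine ⟨AlternatingMap.pi fun i : Fin (n + 1) => ((-1 : F) ^ (n + (i.val + 1) + 1)) •
    (Matrix.detRowAlternating.compLinearMap (LinearMap.funLeft F F i.succAbove)), fun i => ?_⟩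
  funext j
  have h0 : ∀ M : Matrix (Fin n) (Fin n) F, Matrix.detRowAlternating M = M.det := fun _ => rfl
  simp only [AlternatingMap.pi_apply, AlternatingMap.smul_apply, AlternatingMap.compLinearMap_apply,
    Pi.smul_apply]
  by_cases h : j = i
  · subst h
    rw [Pi.single_eq_same]
    refine congrArg _ (Eq.trans ?_ ((h0 1).trans Matrix.det_one))
    congr 1
    funext a b
    simp [LinearMap.funLeft_apply, Pi.single_apply, Matrix.one_apply, eq_comm]
  · obtain ⟨b, hb⟩ := Fin.exists_succAbove_eq (Ne.symm h)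
    rw [Pi.single_eq_of_ne h, smul_zero]
    refine smul_eq_zero_of_right _ ((h0 (Matrix.of _)).trans (Matrix.det_eq_zero_of_column_eq_zero b ?_))
    intro a
    show (Pi.single (i.succAbove a) 1 : Fin (n + 1) → F) (j.succAbove b) = 0
    rw [hb]
    exact Pi.single_eq_of_ne (Fin.succAbove_ne i a).symm _

lemma embed {F A : Type u} [Field F] [IsAlgClosed F] [CharZero F] [Ring A] [Algebra F A]
    [Nontrivial A] (m : ℕ) (hm : Even m) (hm2 : 2 ≤ m) (γ : Fin (m + 1) → A)
    (h : ∀ i j, i ≠ j → γ i * γ j = -(γ j * γ i)) (h1 : ∀ i, γ i * γ i = 1)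
    (β : (Fin (m + 2) → F) [⋀^Fin (m + 1)]→ₗ[F] (Fin (m + 2) → F)) (hβ : IsLBracket F (m + 1) β) :
    ∃ j : (Fin (m + 2) → F) →ₗ[F] A, Injective j ∧
      ∀ v : Fin (m + 1) → (Fin (m + 2) → F), j (β v) = stdBracket fun k => j (v k) := by
  obtain ⟨e, he⟩ := W_sq _ γ h h1
  have hR : ∀ i, W (fun k => γ (i.succAbove k)) = ((-1 : ℤ) ^ i.val) • (γ i * W γ) := by
    intro i
    rw [← mul_smul_comm, ← W_front γ h i, ← mul_assoc, h1, one_mul]
  have hc : ∀ i, W γ * γ i = γ i * W γ := by
    intro i
    have h2 := pass (γ i) m (fun k => γ (i.succAbove k)) fun k => h _ _ (Fin.succAbove_ne i k).symm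
    rw [hm.neg_one_pow, one_smul, hR, mul_smul_comm, smul_mul_assoc, ← mul_assoc, h1, one_mul] at h2
    have h3 : W γ = γ i * W γ * γ i := by
      have := congrArg (fun y => ((-1 : ℤ) ^ i.val) • y) h2
      simpa only [smul_smul, ← mul_pow, neg_mul_neg, mul_one, one_pow, one_smul] using this
    nth_rewrite 1 [h3]
    rw [mul_assoc, h1, mul_one]
  have hf1 : ((m.factorial : ℕ) : F) ≠ 0 := Nat.cast_ne_zero.2 m.factorial_ne_zero
  have hf2 : (((m + 1).factorial : ℕ) : F) ≠ 0 := Nat.cast_ne_zero.2 (m + 1).factorial_ne_zero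
  obtain ⟨a, ha⟩ := IsAlgClosed.exists_pow_nat_eq
    (-((m.factorial : F) * ((m + 1).factorial : F) * (-1) ^ e)⁻¹) (n := 2 * m) (by omega)
  have ha' : -((m.factorial : F) * ((m + 1).factorial : F) * (-1) ^ e) * a ^ (2 * m) = 1 := by
    rw [ha]
    field_simp
  have ha0 : a ≠ 0 := by
    rintro rfl
    rw [zero_pow (by omega), mul_zero] at ha'
    exact zero_ne_one ha'
  set a0 : F := -(((m + 1).factorial : F) * a ^ (m + 1)) with ha0def
  have ha00 : a0 ≠ 0 := neg_ne_zero.2 (mul_ne_zero hf2 (pow_ne_zero _ ha0))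
  let x : Fin (m + 2) → A := Fin.cons (a0 • W γ) fun i => a • γ i
  let j : (Fin (m + 2) → F) →ₗ[F] A := Fintype.linearCombination F x
  have hj : ∀ i, j (Pi.single i 1) = x i := fun i => by simp [j]
  have heF : W γ * W γ = ((-1 : F) ^ e) • (1 : A) := by
    rw [he]
    rcases neg_one_pow_eq_or A e with h | h <;> rcases Nat.even_or_odd e with h' | h' <;>
      simp [h'.neg_one_pow]
  refine ⟨j, ?_, ?_⟩
  · rw [injective_iff_map_eq_zero]
    intro c hc0
    have h2 : (c 0 * a0) • W γ + ∑ i, (c i.succ * a) • γ i = 0 := by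
      rw [← hc0]
      simp [j, x, Fintype.linearCombination_apply, Fin.sum_univ_succ, smul_smul]
    have h3 : ∀ k, (c 0 * a0) • W γ + (c k.succ * a) • γ k = 0 := by
      intro k
      have h4 := congrArg (fun y => γ k * y * γ k) h2
      simp only [mul_add, add_mul, mul_smul_comm, smul_mul_assoc, Finset.mul_sum, Finset.sum_mul,
        mul_zero, zero_mul] at h4
      rw [← hc, mul_assoc, h1, mul_one] at h4
      have h5 : ∑ i, (c i.succ * a) • (γ k * γ i * γ k) + ∑ i, (c i.succ * a) • γ i
          = (2 : F) • (c k.succ * a) • γ k := by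
        rw [← Finset.sum_add_distrib, Finset.sum_eq_single k]
        · rw [h1, one_mul, two_smul]
        · intro i _ hi
          rw [h k i (Ne.symm hi), neg_mul, mul_assoc, h1, mul_one, smul_neg, neg_add_cancel]
        · simp
      have h6 : (2 : F) • ((c 0 * a0) • W γ + (c k.succ * a) • γ k) = 0 := by
        rw [smul_add, ← h5, two_smul]
        have := congrArg₂ (· + ·) h4 h2
        simp only [add_zero] at this
        rw [← this]
        abel
      exact (smul_eq_zero.1 h6).resolve_left two_ne_zero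
    have h7 : ∀ k, (c k.succ * a) • γ k = 0 := by
      intro k
      obtain ⟨l, hl⟩ : ∃ l : Fin (m + 1), l ≠ k := by
        haveI : Nontrivial (Fin (m + 1)) := Fin.nontrivial_iff_two_le.2 (by omega)
        exact exists_ne k
      have h4 := congrArg (fun y => γ l * y * γ l) (h3 k)
      simp only [mul_add, add_mul, mul_smul_comm, smul_mul_assoc, mul_zero, zero_mul] at h4
      rw [← hc, mul_assoc, h1, mul_one, h l k hl, neg_mul, mul_assoc, h1, mul_one, smul_neg] at h4
      have h6 : (2 : F) • ((c k.succ * a) • γ k) = 0 := by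
        rw [two_smul]
        have := congrArg₂ (· - ·) (h3 k) h4
        simp only [sub_zero] at this
        rw [← this]
        abel
      exact (smul_eq_zero.1 h6).resolve_left two_ne_zero
    funext i
    refine Fin.cases ?_ (fun k => ?_) i
    · have h4 := h3 0
      rw [h7, add_zero] at h4
      rcases smul_eq_zero.1 h4 with h5 | h5
      · exact (mul_eq_zero.1 h5).resolve_right ha00
      · rw [h5, mul_zero] at he
        exact absurd he.symm (isUnit_neg_one.pow e).ne_zero
    · rcases smul_eq_zero.1 (h7 k) with h5 | h5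
      · exact (mul_eq_zero.1 h5).resolve_right ha0
      · have := h1 k
        rw [h5, mul_zero] at this
        exact absurd this zero_ne_one
  · let s : A [⋀^Fin (m + 1)]→ₗ[F] A :=
      MultilinearMap.alternatization (MultilinearMap.mkPiAlgebraFin F (m + 1) A)
    have hs : ∀ y, s y = stdBracket y := fun y => by
      simp [s, MultilinearMap.alternatization_apply, stdBracket, Units.smul_def]
    suffices H : j.compAlternatingMap β = s.compLinearMap j by
      intro v
      rw [← hs]
      exact DFunLike.congr_fun H v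
    have key : ∀ i : Fin (m + 2), j (β fun k => Pi.single (i.succAbove k) 1) =
        s fun k => j (Pi.single (i.succAbove k) 1) := by
      intro i
      rw [hβ i, map_smul, hj, hs]
      simp only [hj]
      refine Fin.cases ?_ (fun i => ?_) i
      · have : (fun k : Fin (m + 1) => x ((0 : Fin (m + 2)).succAbove k)) = fun k => a • γ k := by
          funext k
          simp [x]
        rw [this, std_anti _ (fun i j hij => by
          rw [smul_mul_smul_comm, smul_mul_smul_comm, h i j hij, smul_neg]), W_smul,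
          ← Nat.cast_smul_eq_nsmul F, smul_smul]
        simp only [x, Fin.cons_zero, smul_smul]
        congr 1
        have : (-1 : F) ^ (m + 1 + ((0 : Fin (m + 2)).val + 1) + 1) = -1 := by
          apply Odd.neg_one_pow
          obtain ⟨t, rfl⟩ := hm
          exact ⟨t + 1, by simp; omega⟩
        rw [this, ha0def]
        ring
      · have hx0 : x (i.succ.succAbove 0) = a0 • W γ := by simp [x]
        have hxs : ∀ k : Fin m, x (i.succ.succAbove k.succ) = a • γ (i.succAbove k) := by
          intro k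
          simp [x]
        rw [std_cent hm _ (fun k => by
            refine Fin.cases rfl (fun k => ?_) k
            rw [hx0, hxs, smul_mul_smul_comm, smul_mul_smul_comm, hc, mul_comm a0])
          (fun k l hk hl hkl => by
            obtain ⟨k, rfl⟩ := Fin.exists_succ_eq.2 hk
            obtain ⟨l, rfl⟩ := Fin.exists_succ_eq.2 hl
            rw [hxs, hxs, smul_mul_smul_comm, smul_mul_smul_comm, h _ _
              (Fin.succAbove_right_injective.ne fun h => hkl (congrArg _ h)), smul_neg]), W_succ]
        simp only [hx0, hxs]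
        rw [W_smul, hR, ← Int.cast_smul_eq_zsmul F, ← Nat.cast_smul_eq_nsmul F, ← hc, smul_smul,
          smul_mul_smul_comm, ← mul_assoc (W γ), heF, smul_mul_assoc, one_mul, smul_smul, smul_smul]
        simp only [x, Fin.cons_succ, smul_smul]
        congr 1
        have : (-1 : F) ^ (m + 1 + (i.succ.val + 1) + 1) = (-1) ^ i.val := by
          obtain ⟨t, rfl⟩ := hm
          rw [show t + t + 1 + (i.succ.val + 1) + 1 = 2 * (t + 2) + i.val by simp; omega, pow_add,
            pow_mul]
          simp
        rw [this, ha0def]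
        push_cast
        linear_combination (-((-1 : F) ^ i.val * a)) * ha'
    refine Module.Basis.ext_alternating (Pi.basisFun F (Fin (m + 2))) fun v hv => ?_
    obtain ⟨i, hi⟩ : ∃ i, i ∉ Set.range v := by
      by_contra hc
      push Not at hc
      have := Fintype.card_le_of_surjective v hc
      simp at this
    have hk : ∀ k, ∃ l, i.succAbove l = v k :=
      fun k => Fin.exists_succAbove_eq fun h => hi ⟨k, h⟩
    choose t ht using hk
    have htinj : Injective t := fun a b hab => hv (by rw [← ht, ← ht, hab])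
    let σ : Perm (Fin (m + 1)) := Equiv.ofBijective t (Finite.injective_iff_bijective.1 htinj)
    have : (fun k => Pi.basisFun F (Fin (m + 2)) (v k)) =
        (fun k => (Pi.single (i.succAbove k) 1 : Fin (m + 2) → F)) ∘ σ := by
      funext k
      simp [σ, ht]
    rw [this, AlternatingMap.map_perm, AlternatingMap.map_perm]
    congr 1
    exact key i

theorem result (F : Type u) [Field F] [IsAlgClosed F] [CharZero F] (n : ℕ) (hn : 3 ≤ n)
    (ho : Odd n) : (∃ β, IsLBracket F n β) ∧ ∀ β, IsLBracket F n β →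
      ∃ (A : Type u) (_ : Ring A) (_ : Algebra F A) (j : (Fin (n + 1) → F) →ₗ[F] A),
        Injective j ∧ ∀ v : Fin n → (Fin (n + 1) → F), j (β v) = stdBracket fun k => j (v k) := by
  refine ⟨exists_bracket F n, fun β hβ => ?_⟩
  obtain ⟨m, rfl⟩ : ∃ m, n = m + 1 := ⟨n - 1, by omega⟩
  have hm : Even m := by simpa [Nat.odd_add_one] using ho
  let Q : QuadraticForm F (Fin (m + 1) → F) := QuadraticMap.weightedSumSquares F fun _ => (1 : F)
  haveI : Invertible (2 : F) := invertibleOfNonzero two_ne_zero
  refine ⟨CliffordAlgebra Q, inferInstance, inferInstance, embed m hm (by omega)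
    (fun i => CliffordAlgebra.ι Q (Pi.single i 1)) (fun i j hij => ?_) (fun i => ?_) β hβ⟩
  · rw [eq_neg_iff_add_eq_zero, CliffordAlgebra.ι_mul_ι_add_swap]
    have : QuadraticMap.polar Q (Pi.single i 1) (Pi.single j 1) = 0 := by
      simp only [QuadraticMap.polar, Q, QuadraticMap.weightedSumSquares_apply,
        ← Finset.sum_sub_distrib]
      refine Finset.sum_eq_zero fun k _ => ?_
      by_cases h1 : k = i
      · subst h1
        simp [hij]
      · simp [h1]
    rw [this, map_zero]
  · rw [CliffordAlgebra.ι_sq_scalar]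
    simp [Q, QuadraticMap.weightedSumSquares_apply, Pi.single_apply]

end Pool.Agent.Results.MP_2df8e9_al.CliffordEmbedding
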